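import Pool.Agent.StubbornGap.Curve

/-!
# Gaps in the set of stubborn degrees

For every `N` there is an irreducible totally real projective variety `X ⊆ ℙ³` (a rational
quintic curve with one pair of complex conjugate nodes) such that for `1 ≤ k ≤ N` the
degree `2k` is a stubborn degree of `X` if and only if `k` is odd.  Already `N = 2` gives a
variety with stubborn degree `2` but without stubborn forms of degree `4`.
-/

namespace Pool.Agent.Results.MP_9ca6a9_ag.StubbornGaps

open MvPolynomial

noncomputable section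

/-- A real projective variety `X ⊆ ℙⁿ`: the zero locus of a set of real forms in `n + 1`
variables (not necessarily smooth or irreducible). -/
structure RealProjVariety (n : ℕ) where
  /-- the defining equations -/
  equations : Set (MvPolynomial (Fin (n + 1)) ℝ)
  /-- the defining equations are homogeneous -/
  isHomogeneous : ∀ f ∈ equations, ∃ m, f.IsHomogeneous m

namespace RealProjVariety

variable {n : ℕ} (X : RealProjVariety n)

/-- The homogeneous coordinate vectors of the complex points `X(ℂ)`. -/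
def complexPoints : Set (Fin (n + 1) → ℂ) :=
  {p | p ≠ 0 ∧ ∀ f ∈ X.equations, aeval p f = 0}

/-- The homogeneous coordinate vectors of the real points `X(ℝ)`. -/
def realPoints : Set (Fin (n + 1) → ℝ) :=
  {p | p ≠ 0 ∧ ∀ f ∈ X.equations, eval p f = 0}

/-- `X` is totally real: `X(ℝ)` is Zariski dense in `X(ℂ)`, i.e. every complex form which
vanishes on `X(ℝ)` vanishes on `X(ℂ)`. -/
def TotallyReal : Prop :=
  ∀ (m : ℕ) (g : MvPolynomial (Fin (n + 1)) ℂ), g.IsHomogeneous m →
    (∀ p ∈ X.realPoints, eval (fun i => (p i : ℂ)) g = 0) →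
    ∀ p ∈ X.complexPoints, eval p g = 0

/-- The vanishing ideal `I(X)`: all real polynomials which vanish on (the cone over) `X(ℂ)`.
The coordinate ring is `ℝ[X] = ℝ[x₀, …, xₙ] / I(X)`. -/
def vanishingIdeal : Ideal (MvPolynomial (Fin (n + 1)) ℝ) where
  carrier := {F | ∀ p ∈ X.complexPoints, aeval p F = 0}
  add_mem' := by
    intro a b ha hb p hp
    rw [map_add, ha p hp, hb p hp, add_zero]
  zero_mem' := by
    intro p _
    exact map_zero _
  smul_mem' := by
    intro c a ha p hp
    rw [smul_eq_mul, map_mul, ha p hp, mul_zero]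

/-- The class of `F` in `ℝ[X]` is a sum of squares of elements of `ℝ[X]_j`. -/
def IsSumOfSquares (j : ℕ) (F : MvPolynomial (Fin (n + 1)) ℝ) : Prop :=
  ∃ (r : ℕ) (G : Fin r → MvPolynomial (Fin (n + 1)) ℝ),
    (∀ i, (G i).IsHomogeneous j) ∧ F - ∑ i, G i ^ 2 ∈ X.vanishingIdeal

/-- The form `F` of degree `2k` is stubborn on `X`: it is nonnegative on `X(ℝ)`, and for no
odd `m` is `F ^ m` a sum of squares in `ℝ[X]_{2km}`. -/
def IsStubborn (k : ℕ) (F : MvPolynomial (Fin (n + 1)) ℝ) : Prop :=
  F.IsHomogeneous (2 * k) ∧ (∀ p ∈ X.realPoints, 0 ≤ eval p F) ∧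
    ∀ m : ℕ, Odd m → ¬ X.IsSumOfSquares (k * m) (F ^ m)

/-- `D` is a stubborn degree of `X`: `D = 2k` with `k ≥ 1` and there is a stubborn form of
degree `2k` on `X`. -/
def IsStubbornDegree (D : ℕ) : Prop :=
  ∃ k : ℕ, 1 ≤ k ∧ D = 2 * k ∧ ∃ F : MvPolynomial (Fin (n + 1)) ℝ, X.IsStubborn k F

end RealProjVariety

open Pool.Agent.StubbornGap

/-- the curve with parameter `s` -/
def curve (s : ℝ) : RealProjVariety 3 where
  equations := {F | (∃ m, F.IsHomogeneous m) ∧ aeval (phi s) F = 0}
  isHomogeneous := fun _ hf => hf.1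

/-- real points of the curve given by the parametrisation -/
def pt (s t : ℝ) : Fin 4 → ℝ := fun i => (phi s i).eval t

lemma aeval_eq_eval' {n : ℕ} (p : Fin n → ℝ) (F : MvPolynomial (Fin n) ℝ) :
    aeval p F = eval p F := by
  rw [← coe_aeval_eq_eval]
  rfl

lemma eval_pt (s t : ℝ) (F : MvPolynomial (Fin 4) ℝ) :
    eval (pt s t) F = (aeval (phi s) F).eval t := by
  have := comp_aeval_phi s t F
  rw [Polynomial.coe_aeval_eq_eval] at this
  rw [this]
  rw [← coe_aeval_eq_eval]
  rfl

lemma pt_ne_zero (s t : ℝ) : pt s t ≠ 0 := by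
  intro h
  have h0 := congrFun h 0
  simp only [pt, phi, Matrix.cons_val_zero, Pi.zero_apply, v0, Polynomial.eval_add,
    Polynomial.eval_pow, Polynomial.eval_X, Polynomial.eval_C] at h0
  nlinarith [sq_nonneg t, sq_nonneg s]

lemma pt_mem (s t : ℝ) : pt s t ∈ (curve s).realPoints := by
  refine ⟨pt_ne_zero s t, ?_⟩
  intro f hf
  rw [eval_pt, hf.2, Polynomial.eval_zero]

lemma real_mem_complex {n : ℕ} (X : RealProjVariety n) {p : Fin (n + 1) → ℝ}
    (hp : p ∈ X.realPoints) : (fun i => (p i : ℂ)) ∈ X.complexPoints := by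
  refine ⟨?_, ?_⟩
  · intro h
    apply hp.1
    funext i
    have := congrFun h i
    simpa using this
  · intro f hf
    have h1 := hp.2 f hf
    have h2 : aeval (fun i => (p i : ℂ)) f = ((eval p f : ℝ) : ℂ) := by
      have := MvPolynomial.aeval_algebraMap_apply ℂ p f
      simp only [Complex.coe_algebraMap] at this
      rw [← coe_aeval_eq_eval]
      exact this
    rw [h2, h1]
    simp

lemma aeval_real {n : ℕ} (p : Fin (n + 1) → ℝ) (f : MvPolynomial (Fin (n + 1)) ℝ) :
    aeval (fun i => (p i : ℂ)) f = ((eval p f : ℝ) : ℂ) := by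
  have := MvPolynomial.aeval_algebraMap_apply ℂ p f
  simp only [Complex.coe_algebraMap] at this
  rw [← coe_aeval_eq_eval]
  exact this

lemma aeval_phi_of_mem {s : ℝ} {F : MvPolynomial (Fin 4) ℝ} (hF : F ∈ (curve s).vanishingIdeal) :
    aeval (phi s) F = 0 := by
  apply Polynomial.funext
  intro t
  rw [← eval_pt, Polynomial.eval_zero]
  have := hF _ (real_mem_complex _ (pt_mem s t))
  rw [aeval_real] at this
  exact_mod_cast this

lemma mem_of_aeval_phi {s : ℝ} {F : MvPolynomial (Fin 4) ℝ} {m : ℕ} (hF : F.IsHomogeneous m)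
    (h : aeval (phi s) F = 0) : F ∈ (curve s).vanishingIdeal := by
  intro p hp
  exact hp.2 F ⟨⟨m, hF⟩, h⟩

/-! ### total reality -/

/-- coefficientwise real part -/
def rePart {σ : Type*} (g : MvPolynomial σ ℂ) : MvPolynomial σ ℝ :=
  ∑ d ∈ g.support, monomial d (g.coeff d).re

/-- coefficientwise imaginary part -/
def imPart {σ : Type*} (g : MvPolynomial σ ℂ) : MvPolynomial σ ℝ :=
  ∑ d ∈ g.support, monomial d (g.coeff d).im

lemma rePart_hom {σ : Type*} {g : MvPolynomial σ ℂ} {m : ℕ} (hg : g.IsHomogeneous m) :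
    (rePart g).IsHomogeneous m := by
  apply IsHomogeneous.sum
  intro d hd
  apply isHomogeneous_monomial
  by_contra h
  exact (mem_support_iff.mp hd) (hg.coeff_eq_zero h)

lemma imPart_hom {σ : Type*} {g : MvPolynomial σ ℂ} {m : ℕ} (hg : g.IsHomogeneous m) :
    (imPart g).IsHomogeneous m := by
  apply IsHomogeneous.sum
  intro d hd
  apply isHomogeneous_monomial
  by_contra h
  exact (mem_support_iff.mp hd) (hg.coeff_eq_zero h)

lemma eval_re_im {σ : Type*} (g : MvPolynomial σ ℂ) (p : σ → ℂ) :
    eval p g = aeval p (rePart g) + Complex.I * aeval p (imPart g) := by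
  conv_lhs => rw [g.as_sum]
  rw [rePart, imPart, map_sum, map_sum, map_sum, Finset.mul_sum, ← Finset.sum_add_distrib]
  apply Finset.sum_congr rfl
  intro d _
  rw [eval_monomial, aeval_monomial, aeval_monomial]
  simp only [Complex.coe_algebraMap]
  conv_lhs => rw [← Complex.re_add_im (g.coeff d)]
  ring

lemma totallyReal_curve (s : ℝ) : (curve s).TotallyReal := by
  intro m g hg hreal p hp
  have key : ∀ t : ℝ, (aeval (phi s) (rePart g)).eval t = 0 ∧
      (aeval (phi s) (imPart g)).eval t = 0 := by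
    intro t
    have h1 := hreal (pt s t) (pt_mem s t)
    rw [eval_re_im, aeval_real, aeval_real, eval_pt, eval_pt] at h1
    have hre := congrArg Complex.re h1
    have him := congrArg Complex.im h1
    simp at hre him
    exact ⟨hre, him⟩
  have hr : aeval (phi s) (rePart g) = 0 := by
    apply Polynomial.funext
    intro t
    rw [(key t).1, Polynomial.eval_zero]
  have hi : aeval (phi s) (imPart g) = 0 := by
    apply Polynomial.funext
    intro t
    rw [(key t).2, Polynomial.eval_zero]
  rw [eval_re_im, mem_of_aeval_phi (rePart_hom hg) hr p hp,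
    mem_of_aeval_phi (imPart_hom hg) hi p hp]
  simp

/-! ### irreducibility -/

/-- the ring homomorphism `x_i ↦ φ_i(t) λ` -/
def Phi (s : ℝ) : MvPolynomial (Fin 4) ℝ →ₐ[ℝ] Polynomial (Polynomial ℝ) :=
  aeval fun i => Polynomial.X * Polynomial.C (phi s i)

lemma Phi_hom {s : ℝ} {F : MvPolynomial (Fin 4) ℝ} {m : ℕ} (hF : F.IsHomogeneous m) :
    Phi s F = Polynomial.X ^ m * Polynomial.C (aeval (phi s) F) := by
  rw [Phi, aeval_smul_of_isHomogeneous hF]
  congr 1
  have h : (aeval (fun i => Polynomial.C (phi s i)) : MvPolynomial (Fin 4) ℝ →ₐ[ℝ]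
      Polynomial (Polynomial ℝ)) = (Polynomial.CAlgHom (R := ℝ) (A := Polynomial ℝ)).comp
        (aeval (phi s)) := by
    apply algHom_ext
    intro i
    simp
  rw [h]
  rfl

lemma vanishingIdeal_eq_ker (s : ℝ) :
    (curve s).vanishingIdeal = RingHom.ker (Phi s).toRingHom := by
  ext F
  rw [RingHom.mem_ker]
  constructor
  · intro hF
    -- evaluate at scaled points
    have hev : ∀ t l : ℝ, l ≠ 0 → ((Phi s F).map (Polynomial.evalRingHom t)).eval l = 0 := by
      intro t l hl
      have hmem : (fun i => l * pt s t i) ∈ (curve s).realPoints := by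
        refine ⟨?_, ?_⟩
        · intro h
          apply pt_ne_zero s t
          funext i
          have := congrFun h i
          simpa [hl] using this
        · intro f hf
          obtain ⟨⟨m, hm⟩, hf2⟩ := hf
          have h1 := aeval_smul_of_isHomogeneous (S := ℝ) hm l (pt s t)
          rw [aeval_eq_eval', aeval_eq_eval'] at h1
          rw [h1, eval_pt, hf2, Polynomial.eval_zero, mul_zero]
      have h2 := hF _ (real_mem_complex _ hmem)
      have h3 := aeval_real (n := 3) (fun i => l * pt s t i) F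
      rw [h3] at h2
      have h4 : eval (fun i => l * pt s t i) F = 0 := by exact_mod_cast h2
      have h5 : ((Polynomial.evalRingHom l).comp (Polynomial.mapRingHom
          (Polynomial.evalRingHom t))).comp (Phi s).toRingHom =
          (eval (fun i => l * pt s t i)) := by
        apply ringHom_ext
        · intro r
          simp [Phi]
        · intro i
          simp [Phi, pt]
          ring
      have h6 := DFunLike.congr_fun h5 F
      simp only [RingHom.comp_apply, Polynomial.coe_mapRingHom, Polynomial.coe_evalRingHom] at h6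
      change Polynomial.eval l (Polynomial.map (Polynomial.evalRingHom t)
        ((Phi s).toRingHom F)) = 0
      rw [h6, h4]
    have hzero : ∀ t : ℝ, (Phi s F).map (Polynomial.evalRingHom t) = 0 := by
      intro t
      apply Polynomial.eq_zero_of_infinite_isRoot
      apply Set.Infinite.mono (s := {l : ℝ | l ≠ 0})
      · intro l hl
        exact hev t l hl
      · exact (Set.finite_singleton (0 : ℝ)).infinite_compl
    change Phi s F = 0
    ext1 j
    apply Polynomial.funext
    intro t
    have := congrArg (fun P => Polynomial.coeff P j) (hzero t)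
    simpa using this
  · intro hF p hp
    change Phi s F = 0 at hF
    have hcomp : ∀ j, aeval (phi s) (homogeneousComponent j F) = 0 := by
      intro j
      have h1 : Phi s F = ∑ i ∈ Finset.range (F.totalDegree + 1),
          Polynomial.X ^ i * Polynomial.C (aeval (phi s) (homogeneousComponent i F)) := by
        conv_lhs => rw [← sum_homogeneousComponent F]
        rw [map_sum]
        apply Finset.sum_congr rfl
        intro i _
        exact Phi_hom (homogeneousComponent_isHomogeneous i F)
      by_cases hj : j < F.totalDegree + 1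
      · have h2 := congrArg (fun P => Polynomial.coeff P j) h1
        simp only [hF, Polynomial.coeff_zero, Polynomial.finsetSum_coeff,
          Polynomial.coeff_mul_C, Polynomial.coeff_X_pow] at h2
        rw [Finset.sum_eq_single j] at h2
        · simpa using h2.symm
        · intro b _ hb
          rw [if_neg (Ne.symm hb), zero_mul]
        · intro h
          exact absurd (Finset.mem_range.mpr hj) h
      · rw [homogeneousComponent_eq_zero _ _ (by omega), map_zero]
    have hmem : ∀ j, aeval p (homogeneousComponent j F) = 0 := fun j =>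
      mem_of_aeval_phi (homogeneousComponent_isHomogeneous j F) (hcomp j) p hp
    rw [← sum_homogeneousComponent F, map_sum]
    exact Finset.sum_eq_zero fun j _ => hmem j

lemma prime_curve (s : ℝ) : (curve s).vanishingIdeal.IsPrime := by
  rw [vanishingIdeal_eq_ker]
  exact RingHom.ker_isPrime _

/-! ### the stubborn form of degree two -/

/-- form restricting to the quartic `q` -/
def Qtwo (s : ℝ) : MvPolynomial (Fin 4) ℝ :=
  C ((s ^ 2 * (1 + s ^ 2))⁻¹) *
    (X 1 * X 1 + C ((1 - s ^ 2) ^ 2) * (X 0 * X 0) - X 0 * X 2)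

/-- form restricting to the constant `1` -/
def Fone (s : ℝ) : MvPolynomial (Fin 4) ℝ :=
  C ((4 * s ^ 2)⁻¹) * (X 0 * X 0 - Qtwo s)

lemma Qtwo_hom (s : ℝ) : (Qtwo s).IsHomogeneous 2 := by
  apply IsHomogeneous.C_mul
  apply IsHomogeneous.sub
  · apply IsHomogeneous.add
    · exact (isHomogeneous_X ℝ 1).mul (isHomogeneous_X ℝ 1)
    · exact ((isHomogeneous_X ℝ 0).mul (isHomogeneous_X ℝ 0)).C_mul _
  · exact (isHomogeneous_X ℝ 0).mul (isHomogeneous_X ℝ 2)

lemma Fone_hom (s : ℝ) : (Fone s).IsHomogeneous 2 := by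
  apply IsHomogeneous.C_mul
  exact ((isHomogeneous_X ℝ 0).mul (isHomogeneous_X ℝ 0)).sub (Qtwo_hom s)

lemma Qtwo_phi {s : ℝ} (hs : s ≠ 0) : aeval (phi s) (Qtwo s) = qq s := by
  have hc : s ^ 2 * (1 + s ^ 2) ≠ 0 := by positivity
  have e : v1 s * v1 s + Polynomial.C ((1 - s ^ 2) ^ 2) * (v0 s * v0 s) - v0 s * qq s =
      Polynomial.C (s ^ 2 * (1 + s ^ 2)) * qq s := by
    simp only [qq, v0, v1, Polynomial.C_add, Polynomial.C_mul, Polynomial.C_pow, Polynomial.C_sub,
      Polynomial.C_1, map_ofNat]
    ring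
  have h : aeval (phi s) (Qtwo s) = Polynomial.C ((s ^ 2 * (1 + s ^ 2))⁻¹) *
      (v1 s * v1 s + Polynomial.C ((1 - s ^ 2) ^ 2) * (v0 s * v0 s) - v0 s * qq s) := by
    rw [Qtwo, map_mul, map_sub, map_add, map_mul, map_mul, map_mul, map_mul, aeval_X, aeval_X,
      aeval_X]
    simp only [algHom_C, Polynomial.algebraMap_eq]
    rfl
  rw [h, e, ← mul_assoc, ← Polynomial.C_mul, inv_mul_cancel₀ hc, Polynomial.C_1, one_mul]

lemma Fone_phi {s : ℝ} (hs : s ≠ 0) : aeval (phi s) (Fone s) = 1 := by
  have hc : 4 * s ^ 2 ≠ 0 := by positivity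
  have e : v0 s * v0 s - qq s = Polynomial.C (4 * s ^ 2) := by
    simp only [qq, v0, Polynomial.C_add, Polynomial.C_mul, Polynomial.C_pow, Polynomial.C_sub,
      Polynomial.C_1, map_ofNat]
    ring
  have h : aeval (phi s) (Fone s) = Polynomial.C ((4 * s ^ 2)⁻¹) * (v0 s * v0 s - qq s) := by
    rw [Fone, map_mul, map_sub, map_mul, aeval_X, Qtwo_phi hs]
    simp only [algHom_C, Polynomial.algebraMap_eq]
    rfl
  rw [h, e, ← Polynomial.C_mul, inv_mul_cancel₀ hc, Polynomial.C_1]

lemma Fone_nonneg {s : ℝ} (hs : s ≠ 0) (hs1 : s ^ 2 ≠ 1) :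
    ∀ p ∈ (curve s).realPoints, 0 ≤ eval p (Fone s) := by
  intro p hp
  have hrel : Fone s * X 2 ^ 2 - Qtwo s ^ 2 ∈ (curve s).equations := by
    refine ⟨⟨4, ?_⟩, ?_⟩
    · exact ((Fone_hom s).mul (isHomogeneous_X_pow 2 2)).sub ((Qtwo_hom s).pow 2)
    · rw [map_sub, map_mul, map_pow, map_pow, Fone_phi hs, Qtwo_phi hs, aeval_X]
      change 1 * qq s ^ 2 - qq s ^ 2 = 0
      ring
  have h1 := hp.2 _ hrel
  simp only [map_sub, map_mul, map_pow, eval_X] at h1
  have h2 : eval p (Fone s) * p 2 ^ 2 = (eval p (Qtwo s)) ^ 2 := by linarith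
  by_cases h3 : p 2 = 0
  · have h4 : eval p (Qtwo s) = 0 := by
      rw [h3] at h2
      have : (eval p (Qtwo s)) ^ 2 = 0 := by rw [← h2]; ring
      exact pow_eq_zero_iff (two_ne_zero) |>.mp this
    have h5 : p 1 * p 1 + (1 - s ^ 2) ^ 2 * (p 0 * p 0) = 0 := by
      have hc : (s ^ 2 * (1 + s ^ 2))⁻¹ ≠ 0 := by positivity
      simp only [Qtwo, map_sub, map_add, map_mul, eval_X, eval_C] at h4
      rcases mul_eq_zero.mp h4 with h | h
      · exact absurd h hc
      · rw [h3] at h
        linarith
    have h6 : p 0 = 0 := by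
      have hpos : 0 < (1 - s ^ 2) ^ 2 := by
        have : 1 - s ^ 2 ≠ 0 := fun h => hs1 (by linarith)
        positivity
      by_contra h
      have : 0 < p 0 * p 0 := mul_self_pos.mpr h
      nlinarith [mul_self_nonneg (p 1), mul_pos hpos this]
    have h8 : eval p (Fone s) = (4 * s ^ 2)⁻¹ * (p 0 * p 0 - eval p (Qtwo s)) := by
      rw [Fone, map_mul, map_sub, map_mul, eval_X, eval_C]
    rw [h8, h4, h6]
    simp
  · have : 0 < p 2 ^ 2 := lt_of_le_of_ne (sq_nonneg _) (Ne.symm (pow_ne_zero 2 h3))
    have h7 : 0 ≤ eval p (Fone s) * p 2 ^ 2 := by rw [h2]; positivity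
    exact nonneg_of_mul_nonneg_left h7 this

lemma stubborn_odd {s : ℝ} (hs : s ≠ 0) (hs1 : s ^ 2 ≠ 1) {k : ℕ} (hk : Odd k) :
    (curve s).IsStubborn k (Fone s ^ k) := by
  refine ⟨(Fone_hom s).pow k, ?_, ?_⟩
  · intro p hp
    rw [map_pow]
    exact pow_nonneg (Fone_nonneg hs hs1 p hp) k
  · intro m hm hsos
    obtain ⟨r, G, hG, hsum⟩ := hsos
    have h1 := aeval_phi_of_mem hsum
    rw [map_sub, map_pow, map_pow, Fone_phi hs, one_pow, one_pow, map_sum] at h1
    simp only [map_pow] at h1
    have h2 : (1 : Polynomial ℝ) = ∑ i, (aeval (phi s) (G i)) ^ 2 := by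
      linear_combination h1
    have hconst : ∀ i, (aeval (phi s) (G i)).natDegree = 0 := by
      intro i
      have := natDegree_le_of_sum_sq (fun i => aeval (phi s) (G i)) h2 (D := 0) (by simp) i
      omega
    have hzero : ∀ i, aeval (phi s) (G i) = 0 := by
      intro i
      obtain ⟨c, hc⟩ := Polynomial.natDegree_eq_zero.mp (hconst i)
      have h3 := form_parity (s := s) (hG i)
      rw [(hk.mul hm).neg_one_pow, ← hc] at h3
      simp only [Polynomial.aeval_C] at h3
      have h4 : (algebraMap ℝ ℂ) c = 0 := by linear_combination (1 / 2 : ℂ) * h3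
      have h5 : c = 0 := by
        rw [Complex.coe_algebraMap] at h4
        exact_mod_cast h4
      rw [← hc, h5, Polynomial.C_0]
    rw [Finset.sum_eq_zero fun i _ => by rw [hzero i]; ring] at h2
    exact one_ne_zero h2

/-! ### no stubborn forms of degree `2k`, `k` even and small -/

lemma not_stubborn_even {s : ℝ} {N k : ℕ} (hs0 : 0 < s) (hs1 : s < 1)
    (hsN : (5 * N : ℝ) * (2 * s) ≤ 1) (hk1 : 1 ≤ k) (hkN : k ≤ N) (hk : Even k)
    (F : MvPolynomial (Fin 4) ℝ) : ¬ (curve s).IsStubborn k F := by
  rintro ⟨hF, hpos, hno⟩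
  set f := aeval (phi s) F with hf
  have hpsd : Psd f := by
    intro t
    rw [hf, ← eval_pt]
    exact hpos _ (pt_mem s t)
  have ha : 0 < (pa s).im := by rw [pa_im]; linarith
  have hb : 0 < (pb s).im := by rw [pb_im]; linarith
  have hab : pa s ≠ pb s := by
    intro h
    have := congrArg Complex.im h
    rw [pa_im, pb_im] at this
    linarith
  have hfab : Polynomial.aeval (pa s) f = Polynomial.aeval (pb s) f := by
    have := form_parity (s := s) hF
    rw [(even_two_mul k).neg_one_pow, one_mul] at this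
    exact this
  have hdeg : f.natDegree ≤ 5 * (2 * k) := form_natDegree hF
  obtain ⟨m, hm, g, hg, hfm⟩ := affine_nonstubborn ha hb hab hpsd hfab (by
    intro c S hc hS
    apply real_rooted_not_opposite hb (ε := 2 * s) (K := 5 * N)
    · have : pa s - pb s = ((-(2 * s) : ℝ) : ℂ) * Complex.I := by
        simp only [pa, pb]
        push_cast
        ring
      rw [this, norm_mul, Complex.norm_I, mul_one, Complex.norm_real, norm_neg,
        Real.norm_of_nonneg (by linarith), pb_im]
      nlinarith
    · linarith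
    · push_cast; exact hsN
    · exact hc
    · have h1 : (Polynomial.C c * (S.map fun r => Polynomial.X - Polynomial.C r).prod).natDegree =
          Multiset.card S := by
        rw [Polynomial.natDegree_C_mul hc, Polynomial.natDegree_multiset_prod_X_sub_C_eq_card]
      have h2 : f.natDegree = 2 * Multiset.card S := by
        rw [hS, Polynomial.natDegree_pow, h1]
      omega)
  obtain ⟨k', rfl⟩ := hk
  have hdeg2 : (f ^ m).natDegree ≤ 2 * (10 * (k' * m)) := by
    refine (Polynomial.natDegree_pow_le).trans ?_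
    calc m * f.natDegree ≤ m * (5 * (2 * (k' + k'))) := Nat.mul_le_mul_left _ hdeg
      _ = 2 * (10 * (k' * m)) := by ring
  have hgdeg : ∀ i, (g i).natDegree ≤ 10 * (k' * m) := fun i =>
    natDegree_le_of_sum_sq g hfm hdeg2 i
  have hkm : 1 ≤ k' * m := by
    have h1 : 0 < k' := by omega
    have h2 : 0 < m := hm.pos
    exact Nat.mul_pos h1 h2
  have hmem : ∀ i, ∃ G : MvPolynomial (Fin 4) ℝ, G.IsHomogeneous (2 * (k' * m)) ∧
      aeval (phi s) G = g i := fun i =>
    mem_W.mp (surj hs0.ne' _ (k' * m) hkm le_rfl (g i) (hg i) (hgdeg i))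
  choose G hGhom hGphi using hmem
  refine hno m hm ⟨3, G, ?_, ?_⟩
  · intro i
    have := hGhom i
    have e : (k' + k') * m = 2 * (k' * m) := by ring
    rw [e]
    exact this
  · apply mem_of_aeval_phi (m := 2 * (k' + k') * m)
    · apply IsHomogeneous.sub
      · exact hF.pow m
      · apply IsHomogeneous.sum
        intro i _
        have e : 2 * (k' + k') * m = 2 * (k' * m) * 2 := by ring
        rw [e]
        exact (hGhom i).pow 2
    · rw [map_sub, map_pow, ← hf, map_sum, hfm]
      simp only [map_pow, hGphi]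
      exact sub_self _

/-- **Gaps in the set of stubborn degrees.**  For every `N` there is an irreducible totally
real variety `X ⊆ ℙ³` such that, for `1 ≤ k ≤ N`, `2k` is a stubborn degree of `X` if and
only if `k` is odd. -/
theorem result (N : ℕ) : ∃ X : RealProjVariety 3,
    X.TotallyReal ∧ X.vanishingIdeal.IsPrime ∧
      ∀ k : ℕ, 1 ≤ k → k ≤ N → (X.IsStubbornDegree (2 * k) ↔ Odd k) := by
  set s : ℝ := 1 / (10 * (N + 1)) with hs
  have hN : (0 : ℝ) ≤ N := Nat.cast_nonneg N
  have hs0 : 0 < s := by positivity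
  have hsN : (5 * N : ℝ) * (2 * s) ≤ 1 := by
    rw [hs]
    rw [show (5 * (N : ℝ)) * (2 * (1 / (10 * ((N : ℝ) + 1)))) = N / (N + 1) by
      field_simp; ring]
    rw [div_le_one (by positivity)]
    linarith
  have hs1 : s < 1 := by
    rw [hs, div_lt_one (by positivity)]
    nlinarith
  have hs2 : s ^ 2 ≠ 1 := by nlinarith
  refine ⟨curve s, totallyReal_curve s, prime_curve s, ?_⟩
  intro k hk1 hkN
  constructor
  · rintro ⟨k', _, hkk, F, hF⟩
    have : k' = k := by omega
    subst this
    by_contra hodd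
    exact not_stubborn_even hs0 hs1 hsN hk1 hkN (Nat.not_odd_iff_even.mp hodd) F hF
  · intro hodd
    exact ⟨k, hk1, rfl, Fone s ^ k, stubborn_odd hs0.ne' hs2 hodd⟩

end

end Pool.Agent.Results.MP_9ca6a9_ag.StubbornGaps
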